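import Pool.Agent.H74.UVD.Q1D
import Pool.Agent.H23.UVD.Lim

/-!
# MP_44217d_ag: the values of the growth rate are well ordered, the gap
-/

open TensorProduct Module Filter Topology MvPolynomial

namespace Pool.Agent.H11.UVD

open Pool.Agent.H23.UVD Pool.Agent.H74.UVD
open Pool.Agent.H15.Defect Pool.Agent.H12.Defect Pool.Agent.H14.MM Pool.Agent.H15.CX

universe u

/-- The growth rate is an invariant of the scheme. -/
theorem Lam_quot_ker {k : Type u} [Field k] [IsAlgClosed k] {P A : Type u} [CommRing P]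
    [Algebra k P] [Module.Finite k P] [CommRing A] [Algebra k A] [Module.Finite k A] [Nontrivial A]
    (f : P →ₐ[k] A) (hf : Function.Surjective f) : Lam k (P ⧸ RingHom.ker f) = Lam k A := by
  have hn : Nontrivial (P ⧸ RingHom.ker f) := Ideal.Quotient.nontrivial_iff.2 (ker_ne_top f)
  let e := Ideal.quotientKerAlgEquivOfSurjective hf
  apply le_antisymm
  · exact Lam_le_of_surjective (e.symm : A →ₐ[k] P ⧸ RingHom.ker f) e.symm.surjective
  · exact Lam_le_of_surjective (e : (P ⧸ RingHom.ker f) →ₐ[k] A) e.surjective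

/-- (R10) well ordered values for all finite schemes -/
theorem pf_WF (k : Type u) [Field k] [IsAlgClosed k] (hWFP : T_WFP k) (hPD : T_PD k)
    (hPDF : T_PDF k) : T_WF k := by
  unfold T_WF
  rw [Set.isWF_iff_no_descending_seq]
  intro f hf hmem
  choose A iC iA hF hN hL using hmem
  have hle : ∀ n, finrank k (A n) ≤ ⌊f 0⌋₊ := by
    intro n
    apply Nat.le_floor
    have h1 : (finrank k (A n) : ℝ) ≤ Lam k (A n) := finrank_le_Lam
    rw [hL n] at h1
    exact h1.trans (hf.antitone (Nat.zero_le n))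
  choose φ hφ using fun n => hPD ⌊f 0⌋₊ (A n) (hle n)
  have hfin : Module.Finite k (PD k ⌊f 0⌋₊) := hPDF _
  apply hWFP (PD k ⌊f 0⌋₊) (fun n => RingHom.ker (φ n)) (fun n => ker_ne_top (φ n))
  intro m n hmn
  show Lam k (PD k ⌊f 0⌋₊ ⧸ RingHom.ker (φ n)) < Lam k (PD k ⌊f 0⌋₊ ⧸ RingHom.ker (φ m))
  rw [Lam_quot_ker (φ n) (hφ n), Lam_quot_ker (φ m) (hφ m), hL, hL]
  exact hf hmn

/-- (R10) the gap -/
theorem pf_GAP (k : Type u) [Field k] [IsAlgClosed k] (hWF : T_WF k) : T_GAP k := by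
  intro d
  have key : ∃ ε : ℝ, 0 < ε ∧ ∀ (A : Type u) [CommRing A] [Algebra k A] [Module.Finite k A]
      [Nontrivial A], Lam k A < d + ε → Lam k A ≤ d := by
    by_cases hne : ({r : ℝ | ∃ (A : Type u) (_ : CommRing A) (_ : Algebra k A),
        Module.Finite k A ∧ Nontrivial A ∧ Lam k A = r} ∩ {r | (d : ℝ) < r}).Nonempty
    · have hwf : ({r : ℝ | ∃ (A : Type u) (_ : CommRing A) (_ : Algebra k A),
        Module.Finite k A ∧ Nontrivial A ∧ Lam k A = r} ∩ {r | (d : ℝ) < r}).IsWF :=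
        Set.IsWF.mono hWF Set.inter_subset_left
      have h1 : (d : ℝ) < hwf.min hne := (hwf.min_mem hne).2
      refine ⟨hwf.min hne - d, by linarith, ?_⟩
      intro A i1 i2 i3 i4 hA
      by_contra hc
      have h2 : hwf.min hne ≤ Lam k A :=
        hwf.min_le hne ⟨⟨A, i1, i2, i3, i4, rfl⟩, lt_of_not_ge hc⟩
      linarith
    · refine ⟨1, one_pos, ?_⟩
      intro A i1 i2 i3 i4 _
      by_contra hc
      exact hne ⟨Lam k A, ⟨A, i1, i2, i3, i4, rfl⟩, lt_of_not_ge hc⟩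
  obtain ⟨ε, hε, h⟩ := key
  refine ⟨ε, hε, ?_⟩
  intro A _ _ _ _ n _ hn hD
  apply h A
  have h1 : Lam k A ^ n ≤ cdeg k A n := Lam_pow_le hn
  have h2 : cdeg k A n ≤ DD k (⨂[k] _ : Fin n, A) := cdeg_le_of_dle (dle_DD (dle_cdeg n))
  have h3 : (cdeg k A n : ℝ) ≤ DD k (⨂[k] _ : Fin n, A) := by exact_mod_cast h2
  have h4 : Lam k A ^ n < ((d : ℝ) + ε) ^ n := by linarith
  exact lt_of_pow_lt_pow_left₀ n (by positivity) h4

end Pool.Agent.H11.UVD
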